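import Mathlib
import Pool.Agent.U447.QKT

set_option autoImplicit false

namespace Pool.Agent.Results.MP_9317e9_co.QuasiTransitiveAndBeyond

open Pool.Agent.U447.QKS Pool.Agent.U447.QKT

/-- Let `V` be the union of finitely many sets `P i` and of a family of pairwise non-adjacent sets
`F j`. Each `P i` is kernel-perfect in one of the two senses (every subset has an independent subset
dominating it, or every subset has an independent subset absorbing it; independent sets are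
examples). For each `j` there is a sequence of directions `D j n` (each the edge relation or its
reverse; write `→` for it) such that `F j` contains no infinite system `c n, a n, r n` with
* `c n → a n`, not `a n → c n`, and either `r n → c n` one way only with `r n`, `a n` non-adjacent,
  or `a n → r n` one way only with `r n`, `c n` non-adjacent;
* for `m > n` and `y` one of `c m, a m, r m`: `y` is not adjacent to `c n`, and not `y → a n`.
Then the digraph satisfies the conclusion of the kernel-sink conjecture. In particular this holds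
for `F j` quasi-transitive (all tournaments, all posets) or without infinite independent subsets. -/
theorem result :
    ∀ (V : Type*) (G : Digraph V), (∀ v, ¬ G.Adj v v) →
      ∀ (k : ℕ) (P : Fin k → Set V) (J : Type*) (F : J → Set V) (D : J → ℕ → V → V → Prop),
      (∀ v, (∃ j, v ∈ F j) ∨ ∃ i, v ∈ P i) →
      (∀ i,
        (∀ Q ⊆ P i, ∃ K ⊆ Q, (∀ a ∈ K, ∀ b ∈ K, ¬ G.Adj a b) ∧
          ∀ v ∈ Q, v ∈ K ∨ ∃ a ∈ K, G.Adj a v) ∨
        (∀ Q ⊆ P i, ∃ K ⊆ Q, (∀ a ∈ K, ∀ b ∈ K, ¬ G.Adj a b) ∧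
          ∀ v ∈ Q, v ∈ K ∨ ∃ a ∈ K, G.Adj v a)) →
      (∀ i j, i ≠ j → ∀ x ∈ F i, ∀ y ∈ F j, ¬ G.Adj x y) →
      (∀ j n, (∀ x y, D j n x y ↔ G.Adj x y) ∨ (∀ x y, D j n x y ↔ G.Adj y x)) →
      (∀ j, ¬ ∃ c a r : ℕ → V,
        (∀ n, c n ∈ F j ∧ a n ∈ F j ∧ r n ∈ F j ∧ D j n (c n) (a n) ∧ ¬ D j n (a n) (c n) ∧
          ((D j n (r n) (c n) ∧ ¬ D j n (c n) (r n) ∧ ¬ D j n (r n) (a n) ∧
              ¬ D j n (a n) (r n)) ∨
            (D j n (a n) (r n) ∧ ¬ D j n (r n) (a n) ∧ ¬ D j n (r n) (c n) ∧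
              ¬ D j n (c n) (r n)))) ∧
        ∀ n m, n < m → ∀ y, y = c m ∨ y = a m ∨ y = r m →
          ¬ G.Adj (c n) y ∧ ¬ G.Adj y (c n) ∧ ¬ D j n y (a n)) →
      ∃ W : Set V,
        (∃ A ⊆ W, (∀ a ∈ A, ∀ b ∈ A, ¬ G.Adj a b) ∧
          ∀ v ∈ W, v ∈ A ∨ ∃ a ∈ A, G.Adj a v ∨ ∃ u ∈ W, G.Adj a u ∧ G.Adj u v) ∧
        (∃ B ⊆ Wᶜ, (∀ a ∈ B, ∀ b ∈ B, ¬ G.Adj a b) ∧
          ∀ v ∈ Wᶜ, v ∈ B ∨ ∃ b ∈ B, G.Adj v b ∨ ∃ u ∈ Wᶜ, G.Adj v u ∧ G.Adj u b) := by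
  intro V G hl k P J F D hcov hP hnon hD hF
  obtain ⟨W, _, ⟨A, hA1, hA2, hA3⟩, ⟨B, hB1, hB2, hB3⟩⟩ :=
    main2 hl F D hD hF hnon k P hP Set.univ (fun v _ => hcov v)
  rw [← Set.compl_eq_univ_sdiff] at hB1 hB3
  exact ⟨W, ⟨A, hA1, hA2, hA3⟩, ⟨B, hB1, hB2, hB3⟩⟩

end Pool.Agent.Results.MP_9317e9_co.QuasiTransitiveAndBeyond
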